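import Mathlib

/-!
# Meromorphic functions on the plane without poles
-/

set_option autoImplicit false

namespace Pool.Agent.U143.SH

open Filter Topology

/-- a meromorphic function without poles agrees with an entire function where it is analytic -/
lemma entire_of {f : ℂ → ℂ} (hm : ∀ s, MeromorphicAt f s) (h0 : ∀ s, 0 ≤ meromorphicOrderAt f s) :
    ∃ Λ : ℂ → ℂ, Differentiable ℂ Λ ∧ ∀ s, AnalyticAt ℂ f s → Λ s = f s := by
  have hm' : MeromorphicOn f Set.univ := fun s _ => hm s
  have han : ∀ s, AnalyticAt ℂ (toMeromorphicNFOn f Set.univ) s := by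
    intro s
    have h1 := meromorphicNFOn_toMeromorphicNFOn f Set.univ (Set.mem_univ s)
    rw [← h1.meromorphicOrderAt_nonneg_iff_analyticAt,
      meromorphicOrderAt_toMeromorphicNFOn hm' (Set.mem_univ s)]
    exact h0 s
  refine ⟨toMeromorphicNFOn f Set.univ, fun s => (han s).differentiableAt, fun s hs => ?_⟩
  have h2 : f =ᶠ[𝓝[≠] s] toMeromorphicNFOn f Set.univ :=
    (hm'.toMeromorphicNFOn_eq_self_on_nhdsNE (Set.mem_univ s)).symm
  have h3 := (hs.continuousAt.eventuallyEq_nhds_iff_eventuallyEq_nhdsNE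
    (han s).continuousAt).mp h2
  exact h3.eq_of_nhds.symm

end Pool.Agent.U143.SH
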