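import Pool.Agent.U143.SH.Two
import Pool.Agent.R389.TwoMain

/-!
# Families of L-functions of Artin twists which are holomorphic for the solvable subgroups
-/

set_option autoImplicit false

namespace Pool.Agent.U143.SH

open Pool.Agent.H302R2 Pool.Agent.H302R3 Pool.Agent.H541R3.ART Pool.Agent.W446.AS
  Pool.Agent.R389 Filter Topology

variable {G : Type} [Group G] [Finite G] {L : (G → ℂ) → ℂ → ℂ} {c : ℂ}

lemma prod_form (m : (G → ℂ) → ℕ) : (fun s => ∏ᶠ χ ∈ Irr G, L χ s ^ m χ)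
    = fun z => ∏ χ ∈ irrF G, L χ z ^ ((m χ : ℕ) : ℤ) := by
  funext s
  rw [finprod_irr (fun χ => L χ s ^ m χ)]
  exact Finset.prod_congr rfl fun χ _ => by rw [zpow_natCast]

lemma ordm_eq (hL : ∀ χ ∈ Irr G, MeromorphicAt (L χ) c ∧ meromorphicOrderAt (L χ) c ≠ ⊤)
    (m : (G → ℂ) → ℕ) :
    meromorphicOrderAt (fun s => ∏ᶠ χ ∈ Irr G, L χ s ^ m χ) c
      = ((∑ χ ∈ irrF G, (m χ : ℤ) * ords L c χ : ℤ) : WithTop ℤ) := by
  rw [prod_form, (order_prod hL (irrF G) subset_rfl (fun χ => (m χ : ℤ))).2]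

lemma sum_eq (U : Subgroup G) (ψ : U →* ℂˣ) {m : (G → ℂ) → ℕ}
    (hm : IsDecomp (ind U (fun h => ((ψ h : ℂˣ) : ℂ))) m) :
    ∑ᶠ g : U, (theta (ords L c) : G → ℂ) g * (((ψ g)⁻¹ : ℂˣ) : ℂ)
      = ((∑ χ ∈ irrF G, (m χ : ℤ) * ords L c χ : ℤ) : ℂ) * Nat.card U := by
  have h7 := pr_ords (l := L) (c := c) (m := fun χ => (m χ : ℤ))
    (fun χ hχ => by rw [hm.pr hχ]; simp)
  rw [frob' U _ (theta_virt _).conj, pr] at h7
  have h8 : (Nat.card U : ℂ) ≠ 0 := card_ne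
  rw [inv_mul_eq_iff_eq_mul₀ h8] at h7
  rw [mul_comm _ (Nat.card U : ℂ), ← h7]
  refine finsum_congr fun g => ?_
  rw [map_inv]

lemma sol_ords (hL : ∀ χ ∈ Irr G, MeromorphicAt (L χ) c ∧ meromorphicOrderAt (L χ) c ≠ ⊤)
    (hsol : ∀ U : Subgroup G, Group.IsSolvable U → ∀ (ψ : U →* ℂˣ) (m : (G → ℂ) → ℕ),
      IsDecomp (ind U (fun h => ((ψ h : ℂˣ) : ℂ))) m →
        0 ≤ meromorphicOrderAt (fun s => ∏ᶠ χ ∈ Irr G, L χ s ^ m χ) c) :
    IsSolHeilbronn (theta (ords L c) : G → ℂ) where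
  conj g h := (theta_virt (ords L c)).conj g h
  mult U hU ψ := by
    obtain ⟨m, hm⟩ := ind_isDecomp U ψ
    have h1 := hsol U hU ψ m hm
    rw [ordm_eq hL] at h1
    have h2 : (0 : ℤ) ≤ ∑ χ ∈ irrF G, (m χ : ℤ) * ords L c χ := by exact_mod_cast h1
    obtain ⟨k, hk⟩ := Int.eq_ofNat_of_zero_le h2
    refine ⟨k, ?_⟩
    rw [sum_eq U ψ hm, hk]
    push_cast
    ring

lemma theta_one {deg : (G → ℂ) → ℕ} (hdeg : ∀ χ ∈ Irr G, χ 1 = deg χ) :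
    (theta (ords L c) : G → ℂ) 1 = ((∑ χ ∈ irrF G, (deg χ : ℤ) * ords L c χ : ℤ) : ℂ) := by
  rw [theta]
  push_cast
  refine Finset.sum_congr rfl fun χ hχ => ?_
  rw [hdeg χ (mem_irrF.mp hχ)]
  ring

theorem heil (hL : ∀ χ ∈ Irr G, MeromorphicAt (L χ) c ∧ meromorphicOrderAt (L χ) c ≠ ⊤)
    (hsol : ∀ U : Subgroup G, Group.IsSolvable U → ∀ (ψ : U →* ℂˣ) (m : (G → ℂ) → ℕ),
      IsDecomp (ind U (fun h => ((ψ h : ℂˣ) : ℂ))) m →
        0 ≤ meromorphicOrderAt (fun s => ∏ᶠ χ ∈ Irr G, L χ s ^ m χ) c)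
    {deg : (G → ℂ) → ℕ} (hdeg : ∀ χ ∈ Irr G, χ 1 = deg χ)
    (hz : meromorphicOrderAt (fun s => ∏ᶠ χ ∈ Irr G, L χ s ^ deg χ) c ≤ 2) :
    IsHeilbronn (theta (ords L c) : G → ℂ) ∧ ((theta (ords L c) : G → ℂ) 1).re ≤ 2 := by
  have h2 : ((theta (ords L c) : G → ℂ) 1).re ≤ 2 := by
    rw [theta_one hdeg, Complex.intCast_re]
    rw [ordm_eq hL] at hz
    have h1 : (∑ χ ∈ irrF G, (deg χ : ℤ) * ords L c χ) ≤ 2 := by
      have h3 : (2 : WithTop ℤ) = ((2 : ℤ) : WithTop ℤ) := rfl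
      rw [h3] at hz
      exact WithTop.coe_le_coe.mp hz
    exact_mod_cast h1
  exact ⟨isHeilbronn_of_sol (sol_ords hL hsol) h2, h2⟩

lemma nat_of_heil (hθ : IsHeilbronn (theta (ords L c) : G → ℂ)) (U : Subgroup G) (ψ : U →* ℂˣ)
    {m : (G → ℂ) → ℕ} (hm : IsDecomp (ind U (fun h => ((ψ h : ℂˣ) : ℂ))) m) :
    ∃ n : ℕ, ∑ χ ∈ irrF G, (m χ : ℤ) * ords L c χ = n ∧
      ∑ᶠ g : U, (theta (ords L c) : G → ℂ) g * (((ψ g)⁻¹ : ℂˣ) : ℂ) = n * Nat.card U := by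
  obtain ⟨n, hn⟩ := hθ.mult U ψ
  refine ⟨n, ?_, hn⟩
  rw [sum_eq U ψ hm] at hn
  have h8 : (Nat.card U : ℂ) ≠ 0 := card_ne
  exact_mod_cast mul_right_cancel₀ h8 hn

theorem order_nonneg (hL : ∀ χ ∈ Irr G, MeromorphicAt (L χ) c ∧ meromorphicOrderAt (L χ) c ≠ ⊤)
    (hθ : IsHeilbronn (theta (ords L c) : G → ℂ)) (U : Subgroup G) (ψ : U →* ℂˣ)
    {m : (G → ℂ) → ℕ} (hm : IsDecomp (ind U (fun h => ((ψ h : ℂˣ) : ℂ))) m) :
    0 ≤ meromorphicOrderAt (fun s => ∏ᶠ χ ∈ Irr G, L χ s ^ m χ) c := by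
  obtain ⟨n, hn, -⟩ := nat_of_heil hθ U ψ hm
  rw [ordm_eq hL, hn]
  exact_mod_cast Nat.zero_le n

theorem order_mono (hL : ∀ χ ∈ Irr G, MeromorphicAt (L χ) c ∧ meromorphicOrderAt (L χ) c ≠ ⊤)
    (hθ : IsHeilbronn (theta (ords L c) : G → ℂ)) (h2 : ((theta (ords L c) : G → ℂ) 1).re ≤ 2)
    {U V : Subgroup G} (hUV : U ≤ V) (ψ : V →* ℂˣ) {m m' : (G → ℂ) → ℕ}
    (hm : IsDecomp (ind V (fun h => ((ψ h : ℂˣ) : ℂ))) m)
    (hm' : IsDecomp (ind U (fun h => ((ψ (Subgroup.inclusion hUV h) : ℂˣ) : ℂ))) m') :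
    meromorphicOrderAt (fun s => ∏ᶠ χ ∈ Irr G, L χ s ^ m χ) c
      ≤ meromorphicOrderAt (fun s => ∏ᶠ χ ∈ Irr G, L χ s ^ m' χ) c := by
  obtain ⟨a, ha, ha'⟩ := nat_of_heil hθ V ψ hm
  obtain ⟨b, hb, hb'⟩ := nat_of_heil hθ U (ψ.comp (Subgroup.inclusion hUV)) hm'
  rw [ordm_eq hL, ordm_eq hL, ha, hb]
  have h3 : a ≤ b := by
    refine (hθ.comp V.subtype).mult_le (by simpa using h2) (U.subgroupOf V) ψ a b ha' ?_
    have h4 : Nat.card (U.subgroupOf V) = Nat.card U :=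
      Nat.card_congr (Subgroup.subgroupOfEquivOfLe hUV).toEquiv
    rw [h4, ← hb', ← finsum_comp_equiv (Subgroup.subgroupOfEquivOfLe hUV).toEquiv]
    rfl
  exact_mod_cast h3

/-- if some linear character of `G` occurs then all orders are nonnegative -/
theorem all_nonneg (hL : ∀ χ ∈ Irr G, MeromorphicAt (L χ) c ∧ meromorphicOrderAt (L χ) c ≠ ⊤)
    (hθ : IsHeilbronn (theta (ords L c) : G → ℂ)) (h2 : ((theta (ords L c) : G → ℂ) 1).re ≤ 2)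
    (ρ : G →* ℂˣ) (hρ : meromorphicOrderAt (L (fun g => ((ρ g : ℂˣ) : ℂ))) c ≠ 0)
    {χ : G → ℂ} (hχ : χ ∈ Irr G) : 0 ≤ meromorphicOrderAt (L χ) c := by
  classical
  have : Fintype G := Fintype.ofFinite G
  have hpr : ∀ η ∈ Irr G, pr (theta (ords L c) : G → ℂ) η = ords L c η := by
    intro η hη
    rw [pr_eq, theta_pair _ hη, mul_comm, mul_assoc, mul_inv_cancel₀ card_ne, mul_one]
  have hord : ∀ η ∈ Irr G, meromorphicOrderAt (L η) c = ((ords L c η : ℤ) : WithTop ℤ) := by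
    intro η hη
    exact (WithTop.coe_untop₀_of_ne_top (hL η hη).2).symm
  have hρi : (fun g => ((ρ g : ℂˣ) : ℂ)) ∈ Irr G := lin_irr ρ
  obtain ⟨s, hs⟩ := hθ.sum_of_contains h2 ρ (by
    intro h3
    apply hρ
    rw [hord _ hρi, ← WithTop.coe_zero]
    congr 1
    have h4 := hpr _ hρi
    rw [pr_eq] at h4
    have h5 : ∑ g : G, (theta (ords L c) : G → ℂ) g * ((ρ g⁻¹ : ℂˣ) : ℂ) = 0 := by
      rw [finsum_eq_sum_of_fintype] at h3
      rw [← h3]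
      exact Finset.sum_congr rfl fun g _ => by rw [map_inv]
    rw [h5, mul_zero] at h4
    exact_mod_cast h4.symm)
  have h6 : (theta (ords L c) : G → ℂ) ∈ AddSubmonoid.closure (Irr G) := by
    have h7 : (theta (ords L c) : G → ℂ) = (s.map (fun ψ : G →* ℂˣ => (fun g => ((ψ g : ℂˣ) : ℂ)))).sum := by
      funext g
      rw [hs g]
      clear hs
      induction s using Multiset.induction_on with
      | empty => simp
      | cons a t ih => simp [ih]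
    rw [h7]
    refine AddSubmonoid.multiset_sum_mem _ _ fun f hf => ?_
    obtain ⟨ψ, -, rfl⟩ := Multiset.mem_map.mp hf
    exact AddSubmonoid.subset_closure (lin_irr ψ)
  obtain ⟨n, hn⟩ : ∃ n : ℕ, pr (theta (ords L c) : G → ℂ) χ = n := by
    refine nat_closure (fun η hη => ?_) h6
    by_cases he : η = χ
    · exact ⟨1, by rw [he, pr_self hχ]; simp⟩
    · exact ⟨0, by rw [pr_ne hη hχ he]; simp⟩
  rw [hpr χ hχ] at hn
  have h8 : ords L c χ = n := by exact_mod_cast hn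
  rw [hord χ hχ, h8]
  exact_mod_cast Nat.zero_le n

end Pool.Agent.U143.SH
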