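import Pool.Agent.U143.SH.Rel
import Pool.Agent.H302R2.DedekindTwo

/-!
# Chains of normal subgroups with growth at most two in each step
-/

set_option autoImplicit false

namespace Pool.Agent.U143.SH

open Pool.Agent.H302R2 Pool.Agent.H302R3

variable {G : Type} [Group G] [Finite G] {θ η : G → ℂ}

/-- Nonnegative integral multiplicities at the linear characters of all subgroups, which increase
when one passes to smaller subgroups. -/
def Mono (θ : G → ℂ) : Prop :=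
  ∀ (V U : Subgroup G) (h : V ≤ U) (χ : U →* ℂˣ), ∃ a b : ℕ,
    ∑ᶠ g : U, θ g * (((χ g)⁻¹ : ℂˣ) : ℂ) = a * Nat.card U ∧
    ∑ᶠ g : V, θ g * (((χ (Subgroup.inclusion h g))⁻¹ : ℂˣ) : ℂ) = b * Nat.card V ∧ a ≤ b

omit [Finite G] in
lemma Mono.zero : Mono (fun _ : G => (0 : ℂ)) := by
  intro V U h χ
  refine ⟨0, 0, ?_, ?_, le_rfl⟩ <;> simp

lemma Mono.add (hθ : Mono θ) (hη : Mono η) : Mono (fun g => θ g + η g) := by
  classical
  intro V U h χ
  have : Fintype U := Fintype.ofFinite _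
  have : Fintype V := Fintype.ofFinite _
  obtain ⟨a, b, ha, hb, hab⟩ := hθ V U h χ
  obtain ⟨a', b', ha', hb', hab'⟩ := hη V U h χ
  refine ⟨a + a', b + b', ?_, ?_, by omega⟩
  · rw [finsum_eq_sum_of_fintype] at ha ha' ⊢
    simp only [add_mul, Finset.sum_add_distrib, ha, ha']
    push_cast
    ring
  · rw [finsum_eq_sum_of_fintype] at hb hb' ⊢
    simp only [add_mul, Finset.sum_add_distrib, hb, hb']
    push_cast
    ring

lemma Mono.of_heilbronn (hθ : IsHeilbronn θ) (h2 : (θ 1).re ≤ 2) : Mono θ := by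
  intro V U h χ
  obtain ⟨a, ha⟩ := hθ.mult U χ
  obtain ⟨b, hb⟩ := hθ.mult V (χ.comp (Subgroup.inclusion h))
  refine ⟨a, b, ha, hb, ?_⟩
  refine (hθ.comp U.subtype).mult_le (by simpa using h2) (V.subgroupOf U) χ a b ha ?_
  have h4 : Nat.card (V.subgroupOf U) = Nat.card V :=
    Nat.card_congr (Subgroup.subgroupOfEquivOfLe h).toEquiv
  rw [h4, ← hb, ← finsum_comp_equiv (Subgroup.subgroupOfEquivOfLe h).toEquiv]
  rfl

omit [Finite G] in
lemma av_apply (N : Subgroup G) (θ : G → ℂ) (g : G) :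
    av N θ g = (Nat.card N : ℂ)⁻¹ * ∑ᶠ n : N, θ (g * n) := avg_mk N θ g

omit [Finite G] in
lemma av_bot (θ : G → ℂ) : av ⊥ θ = θ := by
  funext g
  rw [av_apply]
  have : Fintype (⊥ : Subgroup G) := Fintype.ofFinite _
  rw [finsum_eq_sum_of_fintype]
  have h1 : ∀ n : (⊥ : Subgroup G), θ (g * n) = θ g := by
    intro n
    rw [Subgroup.mem_bot.mp n.2, mul_one]
  simp [h1]

lemma av_av {N M : Subgroup G} (h : N ≤ M) (θ : G → ℂ) : av M (av N θ) = av M θ := by
  classical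
  have : Fintype N := Fintype.ofFinite _
  have : Fintype M := Fintype.ofFinite _
  have hN : (Nat.card N : ℂ) ≠ 0 := by exact_mod_cast Nat.card_pos.ne'
  funext g
  rw [av_apply, av_apply, finsum_eq_sum_of_fintype, finsum_eq_sum_of_fintype]
  simp only [av_apply, finsum_eq_sum_of_fintype]
  rw [← Finset.mul_sum, Finset.sum_comm]
  have h1 : ∀ n : N, ∑ m : M, θ (g * m * n) = ∑ m : M, θ (g * m) := by
    intro n
    rw [← Equiv.sum_comp (Equiv.mulRight (⟨n, h n.2⟩ : M)) (fun m : M => θ (g * m))]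
    refine Finset.sum_congr rfl fun m _ => ?_
    simp [mul_assoc]
  rw [Finset.sum_congr rfl (fun n _ => h1 n), Finset.sum_const, Finset.card_univ, nsmul_eq_mul,
    ← Nat.card_eq_fintype_card, inv_mul_cancel_left₀ hN]

omit [Finite G] in
lemma normal_solvable_of_le {N M : Subgroup G} (h : N ≤ M) (hM : Group.IsSolvable M) :
    Group.IsSolvable N :=
  Group.isSolvable_of_isSolvable_injective (Subgroup.inclusion_injective h)

/-- **Chains.** -/
theorem chain_mono (hθ : IsSolHeilbronn θ) (C : ℕ → Subgroup G) (hC : Monotone C)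
    (hn : ∀ i, (C i).Normal) (h0 : C 0 = ⊥) (r : ℕ) (hs : Group.IsSolvable (C r))
    (hg : ∀ i < r, (av (C i) θ 1 - av (C (i + 1)) θ 1).re ≤ 2) :
    Mono (fun g => θ g - av (C r) θ g) := by
  induction r with
  | zero =>
    rw [h0, av_bot]
    simpa using Mono.zero (G := G)
  | succ r ih =>
    have hle : C r ≤ C (r + 1) := hC (Nat.le_succ r)
    have hs' : Group.IsSolvable (C r) := normal_solvable_of_le hle hs
    have h1 := ih hs' (fun i hi => hg i (by omega))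
    have := hn r
    have := hn (r + 1)
    have h2 : IsSolHeilbronn (av (C r) θ) := av_sol hθ (C r) hs'
    have h3 : (av (C r) θ 1 - av (C (r + 1)) (av (C r) θ) 1).re ≤ 2 := by
      rw [av_av hle]
      exact hg r (Nat.lt_succ_self r)
    have h4 := Mono.of_heilbronn (new_heilbronn h2 (C (r + 1)) hs h3) h3
    rw [av_av hle] at h4
    have h5 := h1.add h4
    have h6 : (fun g => θ g - av (C r) θ g + (av (C r) θ g - av (C (r + 1)) θ g))
        = fun g => θ g - av (C (r + 1)) θ g := by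
      funext g
      ring
    rw [← h6]
    exact h5

/-- Characters which are not trivial on `U ∩ N` do not occur in the old part. -/
lemma sum_av_eq_zero (N U : Subgroup G) [N.Normal] (χ : U →* ℂˣ) (k : U) (hk : (k : G) ∈ N)
    (hχ : χ k ≠ 1) : ∑ᶠ g : U, av N θ g * (((χ g)⁻¹ : ℂˣ) : ℂ) = 0 := by
  classical
  have : Fintype U := Fintype.ofFinite _
  rw [finsum_eq_sum_of_fintype]
  have h1 : ∑ e : U, av N θ e * (((χ e)⁻¹ : ℂˣ) : ℂ)
      = ∑ e : U, av N θ (e * k : U) * (((χ (e * k))⁻¹ : ℂˣ) : ℂ) :=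
    (Equiv.sum_comp (Equiv.mulRight k)
      (fun e : U => av N θ e * (((χ e)⁻¹ : ℂˣ) : ℂ))).symm
  have h2 : ∑ e : U, av N θ (e * k : U) * (((χ (e * k))⁻¹ : ℂˣ) : ℂ)
      = (((χ k)⁻¹ : ℂˣ) : ℂ) * ∑ e : U, av N θ e * (((χ e)⁻¹ : ℂˣ) : ℂ) := by
    rw [Finset.mul_sum]
    refine Finset.sum_congr rfl fun e _ => ?_
    have h3 : av N θ ((e * k : U) : G) = av N θ e := by
      have h4 : (((e * k : U) : G) : G ⧸ N) = ((e : G) : G ⧸ N) := by
        rw [Subgroup.coe_mul]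
        exact (QuotientGroup.eq.mpr (by simpa using hk)).symm
      rw [av, av, h4]
    rw [h3, map_mul, mul_inv_rev]
    push_cast; ring
  have h3 : (((χ k)⁻¹ : ℂˣ) : ℂ) ≠ 1 := by
    intro h
    apply hχ
    rw [← inv_eq_one, ← Units.val_eq_one]; exact h
  have h4 : (1 - (((χ k)⁻¹ : ℂˣ) : ℂ)) * ∑ e : U, av N θ e * (((χ e)⁻¹ : ℂˣ) : ℂ) = 0 := by
    rw [sub_mul, one_mul, ← h2, ← h1, sub_self]
  rcases mul_eq_zero.mp h4 with h5 | h5
  · exact absurd (sub_eq_zero.mp h5).symm h3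
  · exact h5

/-- The multiplicity in the old part is the multiplicity for `U N`. -/
lemma sum_av_eq (N U Γ : Subgroup G) [N.Normal] (hΓ : Γ = U ⊔ N) (hUΓ : U ≤ Γ) (χ : Γ →* ℂˣ)
    (hχ : ∀ x : Γ, (x : G) ∈ N → χ x = 1) :
    (Nat.card Γ : ℂ) * ∑ᶠ g : U, av N θ g
        * (((χ (Subgroup.inclusion hUΓ g))⁻¹ : ℂˣ) : ℂ)
      = (Nat.card U : ℂ) * ∑ᶠ x : Γ, θ x * (((χ x)⁻¹ : ℂˣ) : ℂ) := by
  classical
  have hNΓ : N ≤ Γ := hΓ ▸ le_sup_right
  let N' := N.subgroupOf Γ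
  let U' := U.subgroupOf Γ
  let e : U' ≃* U := Subgroup.subgroupOfEquivOfLe hUΓ
  have hcard : Nat.card U' = Nat.card U := Nat.card_congr e.toEquiv
  have hHN : U' ⊔ N' = ⊤ := by
    rw [eq_top_iff]
    intro x _
    have hx0 : (x : G) ∈ U ⊔ N := hΓ ▸ x.2
    obtain ⟨h, hh, n, hn, hx⟩ := Subgroup.mem_sup_of_normal_right.mp hx0
    have h1 : x = (⟨h, hUΓ hh⟩ : Γ) * (⟨n, hNΓ hn⟩ : Γ) := Subtype.ext hx.symm
    rw [h1]
    exact mul_mem (Subgroup.mem_sup_left (Subgroup.mem_subgroupOf.mpr hh))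
      (Subgroup.mem_sup_right (Subgroup.mem_subgroupOf.mpr hn))
  have h1 := descend_sum N' U' hHN (fun x : Γ => θ x) χ
    (fun n hn => hχ n (Subgroup.mem_subgroupOf.mp hn))
  rw [hcard] at h1
  rw [← h1]
  congr 1
  rw [← finsum_comp_equiv (f := fun g : U => av N θ g
    * (((χ (Subgroup.inclusion hUΓ g))⁻¹ : ℂˣ) : ℂ)) e.toEquiv]
  refine finsum_congr fun h => ?_
  rw [av_subgroupOf N Γ hNΓ]
  rfl

end Pool.Agent.U143.SH
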