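import Pool.Agent.U143.SH.Ord
import Pool.Agent.U143.SH.Chain

/-!
# Orders of twisted L-functions in a solvable layer with growth at most two
-/

set_option autoImplicit false

namespace Pool.Agent.U143.SH

open Pool.Agent.H302R2 Pool.Agent.H302R3 Pool.Agent.H541R3.ART Pool.Agent.W446.AS
  Pool.Agent.R389 Filter Topology

variable {G : Type} [Group G] [Finite G] {L : (G → ℂ) → ℂ → ℂ} {c : ℂ}

/-- the order as an integer -/
noncomputable def oo (L : (G → ℂ) → ℂ → ℂ) (c : ℂ) (m : (G → ℂ) → ℕ) : ℤ :=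
  ∑ χ ∈ irrF G, (m χ : ℤ) * ords L c χ

lemma order_eq (hL : ∀ χ ∈ Irr G, MeromorphicAt (L χ) c ∧ meromorphicOrderAt (L χ) c ≠ ⊤)
    (m : (G → ℂ) → ℕ) :
    meromorphicOrderAt (fun s => ∏ᶠ χ ∈ Irr G, L χ s ^ m χ) c = (oo L c m : WithTop ℤ) :=
  ordm_eq hL m

lemma av_one (N : Subgroup G) {m : (G → ℂ) → ℕ} (hm : IsDecomp (ind N (fun _ => (1 : ℂ))) m) :
    av N (theta (ords L c) : G → ℂ) 1 = (oo L c m : ℂ) := by
  have h1 : IsDecomp (ind N (fun h => (((1 : N →* ℂˣ) h : ℂˣ) : ℂ))) m := by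
    have h2 : (fun h : N => (((1 : N →* ℂˣ) h : ℂˣ) : ℂ)) = fun _ => 1 := by
      funext h
      simp
    rw [h2]
    exact hm
  have h2 := sum_eq (L := L) (c := c) N 1 h1
  have h8 : (Nat.card N : ℂ) ≠ 0 := card_ne
  rw [av_apply]
  simp only [one_mul]
  simp only [MonoidHom.one_apply, inv_one, Units.val_one, mul_one] at h2
  rw [h2, oo, mul_comm ((_ : ℤ) : ℂ), inv_mul_cancel_left₀ h8]

/-- Growth at most two in each step of a chain of normal subgroups from `⊥` to `N`. -/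
def Slow (L : (G → ℂ) → ℂ → ℂ) (c : ℂ) (N : Subgroup G) : Prop :=
  ∃ (r : ℕ) (C : ℕ → Subgroup G), Monotone C ∧ (∀ i, (C i).Normal) ∧ C 0 = ⊥ ∧ C r = N ∧
    ∀ i < r, ∀ m m' : (G → ℂ) → ℕ, IsDecomp (ind (C i) (fun _ => 1)) m →
      IsDecomp (ind (C (i + 1)) (fun _ => 1)) m' →
        meromorphicOrderAt (fun s => ∏ᶠ χ ∈ Irr G, L χ s ^ m χ) c
          ≤ meromorphicOrderAt (fun s => ∏ᶠ χ ∈ Irr G, L χ s ^ m' χ) c + 2

lemma one_decomp (N : Subgroup G) : ∃ m : (G → ℂ) → ℕ, IsDecomp (ind N (fun _ => (1 : ℂ))) m := by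
  obtain ⟨m, hm⟩ := ind_isDecomp N (1 : N →* ℂˣ)
  refine ⟨m, ?_⟩
  have h1 : (fun h : N => (((1 : N →* ℂˣ) h : ℂˣ) : ℂ)) = fun _ => 1 := by
    funext h
    simp
  rw [h1] at hm
  exact hm

theorem slow_mono (hL : ∀ χ ∈ Irr G, MeromorphicAt (L χ) c ∧ meromorphicOrderAt (L χ) c ≠ ⊤)
    (hsol : ∀ U : Subgroup G, Group.IsSolvable U → ∀ (ψ : U →* ℂˣ) (m : (G → ℂ) → ℕ),
      IsDecomp (ind U (fun h => ((ψ h : ℂˣ) : ℂ))) m →
        0 ≤ meromorphicOrderAt (fun s => ∏ᶠ χ ∈ Irr G, L χ s ^ m χ) c)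
    {N : Subgroup G} (hN : Group.IsSolvable N) (hs : Slow L c N) :
    Mono (fun g : G => (theta (ords L c) : G → ℂ) g - av N (theta (ords L c)) g) := by
  obtain ⟨r, C, hC, hn, h0, hr, hg⟩ := hs
  subst hr
  refine chain_mono (sol_ords hL hsol) C hC hn h0 r hN fun i hi => ?_
  obtain ⟨m, hm⟩ := one_decomp (C i)
  obtain ⟨m', hm'⟩ := one_decomp (C (i + 1))
  have h1 := hg i hi m m' hm hm'
  rw [order_eq hL, order_eq hL] at h1
  have h2 : oo L c m ≤ oo L c m' + 2 := by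
    have h3 : ((oo L c m' : ℤ) : WithTop ℤ) + 2 = ((oo L c m' + 2 : ℤ) : WithTop ℤ) := rfl
    rw [h3] at h1
    exact WithTop.coe_le_coe.mp h1
  rw [av_one (C i) hm, av_one (C (i + 1)) hm', ← Int.cast_sub, Complex.intCast_re]
  have h4 : oo L c m - oo L c m' ≤ 2 := by omega
  exact_mod_cast h4

/-- Characters which are not trivial on `U ∩ N`. -/
theorem rel_nonneg (hL : ∀ χ ∈ Irr G, MeromorphicAt (L χ) c ∧ meromorphicOrderAt (L χ) c ≠ ⊤)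
    {N : Subgroup G} [N.Normal]
    (hM : Mono (fun g : G => (theta (ords L c) : G → ℂ) g - av N (theta (ords L c)) g))
    (U : Subgroup G) (ψ : U →* ℂˣ) (k : U) (hk : (k : G) ∈ N) (hψ : ψ k ≠ 1)
    {m : (G → ℂ) → ℕ} (hm : IsDecomp (ind U (fun h => ((ψ h : ℂˣ) : ℂ))) m) :
    0 ≤ meromorphicOrderAt (fun s => ∏ᶠ χ ∈ Irr G, L χ s ^ m χ) c := by
  classical
  have : Fintype U := Fintype.ofFinite _
  obtain ⟨a, -, ha, -⟩ := hM U U le_rfl ψ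
  have h1 := sum_av_eq_zero (θ := (theta (ords L c) : G → ℂ)) N U ψ k hk hψ
  have h2 := sum_eq (L := L) (c := c) U ψ hm
  have h8 : (Nat.card U : ℂ) ≠ 0 := card_ne
  rw [finsum_eq_sum_of_fintype] at ha h1 h2
  simp only [sub_mul, Finset.sum_sub_distrib] at ha
  rw [h1, h2, sub_zero] at ha
  have h3 := mul_right_cancel₀ h8 ha
  have h4 : (∑ χ ∈ irrF G, (m χ : ℤ) * ords L c χ) = a := by exact_mod_cast h3
  rw [ordm_eq hL, h4]
  exact_mod_cast Nat.zero_le a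

/-- Characters which are trivial on `N`. -/
theorem rel_mono {N : Subgroup G} [N.Normal]
    (hM : Mono (fun g : G => (theta (ords L c) : G → ℂ) g - av N (theta (ords L c)) g))
    (V U Γ Δ : Subgroup G) (hVU : V ≤ U) (hΓ : Γ = U ⊔ N) (hΔ : Δ = V ⊔ N) (hU : U ≤ Γ)
    (hV : V ≤ Γ) (hΔΓ : Δ ≤ Γ) (ψ : Γ →* ℂˣ) (hψ : ∀ x : Γ, (x : G) ∈ N → ψ x = 1)
    {mU mV mΓ mΔ : (G → ℂ) → ℕ}
    (hmΓ : IsDecomp (ind Γ (fun h => ((ψ h : ℂˣ) : ℂ))) mΓ)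
    (hmU : IsDecomp (ind U (fun h => ((ψ (Subgroup.inclusion hU h) : ℂˣ) : ℂ))) mU)
    (hmΔ : IsDecomp (ind Δ (fun h => ((ψ (Subgroup.inclusion hΔΓ h) : ℂˣ) : ℂ))) mΔ)
    (hmV : IsDecomp (ind V (fun h => ((ψ (Subgroup.inclusion hV h) : ℂˣ) : ℂ))) mV) :
    oo L c mΓ ≤ oo L c mU ∧ oo L c mU + oo L c mΔ ≤ oo L c mV + oo L c mΓ := by
  classical
  have : Fintype U := Fintype.ofFinite _
  have : Fintype V := Fintype.ofFinite _
  have : Fintype Γ := Fintype.ofFinite _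
  have : Fintype Δ := Fintype.ofFinite _
  have hcU : (Nat.card U : ℂ) ≠ 0 := card_ne
  have hcV : (Nat.card V : ℂ) ≠ 0 := card_ne
  have hcΓ : (Nat.card Γ : ℂ) ≠ 0 := card_ne
  have hcΔ : (Nat.card Δ : ℂ) ≠ 0 := card_ne
  obtain ⟨a, b, ha, hb, hab⟩ := hM V U hVU (ψ.comp (Subgroup.inclusion hU))
  have eU := sum_av_eq (θ := (theta (ords L c) : G → ℂ)) N U Γ hΓ hU ψ hψ
  have hVΔ : V ≤ Δ := hΔ ▸ le_sup_left
  have eV := sum_av_eq (θ := (theta (ords L c) : G → ℂ)) N V Δ hΔ hVΔ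
    (ψ.comp (Subgroup.inclusion hΔΓ)) (fun x hx => hψ _ hx)
  have sU := sum_eq (L := L) (c := c) U (ψ.comp (Subgroup.inclusion hU)) hmU
  have sV := sum_eq (L := L) (c := c) V (ψ.comp (Subgroup.inclusion hV)) hmV
  have sΓ := sum_eq (L := L) (c := c) Γ ψ hmΓ
  have sΔ := sum_eq (L := L) (c := c) Δ (ψ.comp (Subgroup.inclusion hΔΓ)) hmΔ
  change ∑ᶠ x : Γ, (theta (ords L c) : G → ℂ) x * (((ψ x)⁻¹ : ℂˣ) : ℂ)
    = (oo L c mΓ : ℂ) * _ at sΓ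
  change _ = (oo L c mU : ℂ) * _ at sU
  change _ = (oo L c mV : ℂ) * _ at sV
  change _ = (oo L c mΔ : ℂ) * _ at sΔ
  rw [sΓ] at eU
  rw [sΔ] at eV
  have eU' : ∑ᶠ g : U, av N (theta (ords L c) : G → ℂ) g
      * ((((ψ.comp (Subgroup.inclusion hU)) g)⁻¹ : ℂˣ) : ℂ) = oo L c mΓ * Nat.card U := by
    apply mul_left_cancel₀ hcΓ
    rw [show ∑ᶠ g : U, av N (theta (ords L c) : G → ℂ) g
      * ((((ψ.comp (Subgroup.inclusion hU)) g)⁻¹ : ℂˣ) : ℂ) = _ from rfl]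
    exact eU.trans (by ring)
  have eV' : ∑ᶠ g : V, av N (theta (ords L c) : G → ℂ) g
      * ((((ψ.comp (Subgroup.inclusion hV)) g)⁻¹ : ℂˣ) : ℂ) = oo L c mΔ * Nat.card V := by
    apply mul_left_cancel₀ hcΔ
    exact eV.trans (by ring)
  rw [finsum_eq_sum_of_fintype] at ha hb eU' eV' sU sV
  simp only [sub_mul, Finset.sum_sub_distrib] at ha hb
  rw [eU', sU, ← sub_mul] at ha
  have hb' : (∑ x : V, (theta (ords L c) : G → ℂ) x
        * ((((ψ.comp (Subgroup.inclusion hV)) x)⁻¹ : ℂˣ) : ℂ))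
      - (∑ x : V, av N (theta (ords L c) : G → ℂ) x
        * ((((ψ.comp (Subgroup.inclusion hV)) x)⁻¹ : ℂˣ) : ℂ)) = b * Nat.card V := hb
  rw [eV', sV, ← sub_mul] at hb'
  have h1 := mul_right_cancel₀ hcU ha
  have h2 := mul_right_cancel₀ hcV hb'
  have h3 : oo L c mU - oo L c mΓ = a := by exact_mod_cast h1
  have h4 : oo L c mV - oo L c mΔ = b := by exact_mod_cast h2
  constructor <;> omega

end Pool.Agent.U143.SH
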