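import Pool.Agent.U143.SH.Two
import Pool.Agent.H302R2.Average
import Pool.Agent.H302R2.Deg2Main
import Pool.Agent.H302R6.DedB

/-!
# The new part of a class function which is nonnegative on the solvable subgroups
-/

set_option autoImplicit false

namespace Pool.Agent.U143.SH

open Pool.Agent.H302R2 Pool.Agent.H302R3

section core

variable {Γ : Type} [Group Γ] [Finite Γ]

/-- Sums of averages over a supplement of `N`. -/
lemma descend_sum (N H : Subgroup Γ) [N.Normal] (hHN : H ⊔ N = ⊤) (θ : Γ → ℂ) (χ : Γ →* ℂˣ)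
    (hχ : ∀ n ∈ N, χ n = 1) :
    (Nat.card Γ : ℂ) * ∑ᶠ h : H, avg N θ ((h : Γ) : Γ ⧸ N) * (((χ h)⁻¹ : ℂˣ) : ℂ)
      = (Nat.card H : ℂ) * ∑ᶠ x : Γ, θ x * (((χ x)⁻¹ : ℂˣ) : ℂ) := by
  classical
  have : Fintype Γ := Fintype.ofFinite _
  have : Fintype H := Fintype.ofFinite _
  have : Fintype (Γ ⧸ N) := Fintype.ofFinite _
  let φ : H →* Γ ⧸ N := (QuotientGroup.mk' N).comp H.subtype
  have hφ : Function.Surjective φ := by
    intro q
    obtain ⟨x, rfl⟩ := QuotientGroup.mk_surjective q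
    have hx : x ∈ H ⊔ N := by rw [hHN]; exact Subgroup.mem_top _
    obtain ⟨h, hh, n, hn, rfl⟩ := Subgroup.mem_sup_of_normal_right.mp hx
    refine ⟨⟨h, hh⟩, ?_⟩
    change ((h : Γ) : Γ ⧸ N) = ((h * n : Γ) : Γ ⧸ N)
    rw [QuotientGroup.eq]
    simpa using hn
  let χ' : Γ ⧸ N →* ℂˣ := QuotientGroup.lift N χ hχ
  have hχ' : ∀ x : Γ, χ' (x : Γ ⧸ N) = χ x := fun x => QuotientGroup.lift_mk' N hχ x
  have h1 := sum_comp_surj φ hφ (fun q => avg N θ q * (((χ' q)⁻¹ : ℂˣ) : ℂ))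
  have h1' : ∑ h : H, avg N θ ((h : Γ) : Γ ⧸ N) * (((χ h)⁻¹ : ℂˣ) : ℂ)
      = ∑ h : H, avg N θ (φ h) * (((χ' (φ h))⁻¹ : ℂˣ) : ℂ) := by
    refine Finset.sum_congr rfl fun h _ => ?_
    have h2 : φ h = ((h : Γ) : Γ ⧸ N) := rfl
    rw [h2, hχ']
  have h3 := sum_avg N (fun x => θ x * (((χ x)⁻¹ : ℂˣ) : ℂ))
  have h4 : ∀ q : Γ ⧸ N, avg N (fun x => θ x * (((χ x)⁻¹ : ℂˣ) : ℂ)) q
      = avg N θ q * (((χ' q)⁻¹ : ℂˣ) : ℂ) := by
    intro q
    obtain ⟨x, rfl⟩ := QuotientGroup.mk_surjective q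
    rw [avg_mk, avg_mk, hχ', mul_assoc]
    congr 1
    have : Fintype N := Fintype.ofFinite _
    rw [finsum_eq_sum_of_fintype, finsum_eq_sum_of_fintype, Finset.sum_mul]
    refine Finset.sum_congr rfl fun n _ => ?_
    rw [map_mul, hχ n n.2, mul_one]
  simp only [h4] at h3
  rw [h3, finsum_eq_sum_of_fintype, finsum_eq_sum_of_fintype, h1', h1]
  have h5 : Nat.card H = Nat.card φ.ker * Nat.card (Γ ⧸ N) := by
    rw [← Nat.card_congr (QuotientGroup.quotientKerEquivOfSurjective φ hφ).toEquiv, mul_comm]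
    exact Subgroup.card_eq_card_quotient_mul_card_subgroup _
  have h6 : Nat.card Γ = Nat.card (Γ ⧸ N) * Nat.card N :=
    Subgroup.card_eq_card_quotient_mul_card_subgroup _
  rw [h5, h6]
  push_cast
  ring

/-- The multiplicity in the old part is at most the multiplicity. -/
lemma core {θ : Γ → ℂ} (hθ : IsHeilbronn θ) (N H : Subgroup Γ) [N.Normal]
    (hN : Group.IsSolvable N) (hHN : H ⊔ N = ⊤) (χ : H →* ℂˣ) {a b : ℕ}
    (ha : ∑ᶠ h : H, θ h * (((χ h)⁻¹ : ℂˣ) : ℂ) = a * Nat.card H)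
    (hb : ∑ᶠ h : H, avg N θ ((h : Γ) : Γ ⧸ N) * (((χ h)⁻¹ : ℂˣ) : ℂ) = b * Nat.card H) :
    b ≤ a := by
  classical
  have : Fintype Γ := Fintype.ofFinite _
  have : Fintype H := Fintype.ofFinite _
  have hcH : (Nat.card H : ℂ) ≠ 0 := by exact_mod_cast Nat.card_pos.ne'
  let φ : H →* Γ ⧸ N := (QuotientGroup.mk' N).comp H.subtype
  have hφ : Function.Surjective φ := by
    intro q
    obtain ⟨x, rfl⟩ := QuotientGroup.mk_surjective q
    have hx : x ∈ H ⊔ N := by rw [hHN]; exact Subgroup.mem_top _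
    obtain ⟨h, hh, n, hn, rfl⟩ := Subgroup.mem_sup_of_normal_right.mp hx
    refine ⟨⟨h, hh⟩, ?_⟩
    change ((h : Γ) : Γ ⧸ N) = ((h * n : Γ) : Γ ⧸ N)
    rw [QuotientGroup.eq]
    simpa using hn
  by_cases hker : ∀ k ∈ φ.ker, χ k = 1
  · let χq : Γ ⧸ N →* ℂˣ := (QuotientGroup.lift φ.ker χ hker).comp
        (QuotientGroup.quotientKerEquivOfSurjective φ hφ).symm.toMonoidHom
    have hχq : ∀ h : H, χq (φ h) = χ h := by
      intro e
      have h1 : (QuotientGroup.quotientKerEquivOfSurjective φ hφ).symm (φ e)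
          = (QuotientGroup.mk e : H ⧸ φ.ker) := by
        rw [MulEquiv.symm_apply_eq]; rfl
      simp only [χq, MonoidHom.coe_comp, MulEquiv.coe_toMonoidHom, Function.comp_apply, h1]
      rfl
    let χΓ : Γ →* ℂˣ := χq.comp (QuotientGroup.mk' N)
    have hχΓ : ∀ h : H, χΓ (h : Γ) = χ h := fun h => hχq h
    have hχN : ∀ n ∈ N, χΓ n = 1 := by
      intro n hn
      have h1 : (QuotientGroup.mk' N) n = 1 := (QuotientGroup.eq_one_iff _).mpr hn
      rw [MonoidHom.comp_apply, h1, map_one]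
    have hθ' : IsHeilbronn (fun x => θ x * (((χΓ x)⁻¹ : ℂˣ) : ℂ)) := hθ.twist χΓ
    refine Pool.Agent.H302R6.ded_sol hθ' N H hN (a := a) (b := b) ?_ ?_
    · rw [← ha]
      refine finsum_congr fun h => ?_
      rw [hχΓ]
    · have h1 := descend_sum N H hHN θ χΓ hχN
      have h2 : ∑ᶠ h : H, avg N θ ((h : Γ) : Γ ⧸ N) * (((χΓ h)⁻¹ : ℂˣ) : ℂ)
          = b * Nat.card H := by
        rw [← hb]
        refine finsum_congr fun h => ?_
        rw [hχΓ]
      rw [h2] at h1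
      rw [hHN]
      have h3 : ∑ᶠ h : (⊤ : Subgroup Γ), θ (h : Γ) * (((χΓ (h : Γ))⁻¹ : ℂˣ) : ℂ)
          = ∑ᶠ x : Γ, θ x * (((χΓ x)⁻¹ : ℂˣ) : ℂ) :=
        finsum_comp_equiv (f := fun x : Γ => θ x * (((χΓ x)⁻¹ : ℂˣ) : ℂ))
          (Subgroup.topEquiv (G := Γ)).toEquiv
      rw [h3, Subgroup.card_top]
      apply mul_left_cancel₀ hcH
      rw [← h1]
      ring
  · push Not at hker
    obtain ⟨k, hk, hχk⟩ := hker
    rw [finsum_eq_sum_of_fintype] at hb
    have h1 : ∑ e : H, avg N θ (φ e) * (((χ e)⁻¹ : ℂˣ) : ℂ)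
        = ∑ e : H, avg N θ (φ (e * k)) * (((χ (e * k))⁻¹ : ℂˣ) : ℂ) :=
      (Equiv.sum_comp (Equiv.mulRight k)
        (fun e => avg N θ (φ e) * (((χ e)⁻¹ : ℂˣ) : ℂ))).symm
    have h2 : ∑ e : H, avg N θ (φ (e * k)) * (((χ (e * k))⁻¹ : ℂˣ) : ℂ)
        = (((χ k)⁻¹ : ℂˣ) : ℂ) * ∑ e : H, avg N θ (φ e) * (((χ e)⁻¹ : ℂˣ) : ℂ) := by
      rw [Finset.mul_sum]
      refine Finset.sum_congr rfl fun e _ => ?_
      rw [map_mul, map_mul, MonoidHom.mem_ker.mp hk, mul_one, mul_inv_rev]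
      push_cast; ring
    have h3 : (((χ k)⁻¹ : ℂˣ) : ℂ) ≠ 1 := by
      intro h
      apply hχk
      rw [← inv_eq_one, ← Units.val_eq_one]; exact h
    have h4 : (1 - (((χ k)⁻¹ : ℂˣ) : ℂ)) * ∑ e : H, avg N θ (φ e) * (((χ e)⁻¹ : ℂˣ) : ℂ) = 0 := by
      rw [sub_mul, one_mul, ← h2, ← h1, sub_self]
    have h5 : ∑ e : H, avg N θ (φ e) * (((χ e)⁻¹ : ℂˣ) : ℂ) = 0 := by
      rcases mul_eq_zero.mp h4 with h5 | h5
      · exact absurd (sub_eq_zero.mp h5).symm h3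
      · exact h5
    have h6 : (b : ℂ) * Nat.card H = 0 := by
      rw [← hb]
      exact h5
    have h7 : b = 0 := by
      rcases mul_eq_zero.mp h6 with h | h
      · exact_mod_cast h
      · exact absurd h hcH
    omega

end core

variable {G : Type} [Group G] [Finite G] {θ : G → ℂ}

/-- the average over the cosets of `N`, as a function on the group -/
noncomputable def av (N : Subgroup G) (θ : G → ℂ) : G → ℂ := fun g => avg N θ ((g : G) : G ⧸ N)

omit [Finite G] in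
lemma av_subgroupOf (N Γ : Subgroup G) (h : N ≤ Γ) (x : Γ) :
    avg (N.subgroupOf Γ) (fun y : Γ => θ y) ((x : Γ) : Γ ⧸ N.subgroupOf Γ) = av N θ x := by
  rw [av, avg_mk, avg_mk]
  have h1 : Nat.card (N.subgroupOf Γ) = Nat.card N :=
    Nat.card_congr (Subgroup.subgroupOfEquivOfLe h).toEquiv
  rw [h1]
  congr 1
  exact finsum_comp_equiv (f := fun n : N => θ (x * n)) (Subgroup.subgroupOfEquivOfLe h).toEquiv

omit [Finite G] in
lemma sup_solvable {N H : Subgroup G} [N.Normal] (hN : Group.IsSolvable N)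
    (hH : Group.IsSolvable H) : Group.IsSolvable (H ⊔ N : Subgroup G) := by
  let Γ : Subgroup G := H ⊔ N
  have hNΓ : N ≤ Γ := le_sup_right
  have hHΓ : H ≤ Γ := le_sup_left
  let i : N →* Γ := Subgroup.inclusion hNΓ
  let p : Γ →* Γ ⧸ N.subgroupOf Γ := QuotientGroup.mk' _
  have hs : Function.Surjective (p.comp (Subgroup.inclusion hHΓ)) := by
    intro q
    obtain ⟨x, rfl⟩ := QuotientGroup.mk_surjective q
    obtain ⟨h, hh, n, hn, hx⟩ := Subgroup.mem_sup_of_normal_right.mp x.2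
    refine ⟨⟨h, hh⟩, ?_⟩
    change (((⟨h, hHΓ hh⟩ : Γ)) : Γ ⧸ N.subgroupOf Γ) = ((x : Γ) : Γ ⧸ N.subgroupOf Γ)
    rw [QuotientGroup.eq, Subgroup.mem_subgroupOf]
    have h1 : (((⟨h, hHΓ hh⟩ : Γ)⁻¹ * x : Γ) : G) = n := by
      simp only [Subgroup.coe_mul, Subgroup.coe_inv]
      rw [← hx]
      group
    rw [h1]
    exact hn
  have hq : Group.IsSolvable (Γ ⧸ N.subgroupOf Γ) := Group.isSolvable_of_surjective hs
  refine Group.isSolvable_of_ker_le_range i p ?_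
  intro x hx
  rw [QuotientGroup.ker_mk', Subgroup.mem_subgroupOf] at hx
  exact ⟨⟨x, hx⟩, rfl⟩

/-- **Solvable layers, one subgroup.** -/
lemma sol_avg (hθ : IsSolHeilbronn θ) (N : Subgroup G) [N.Normal] (hN : Group.IsSolvable N)
    (H : Subgroup G) (hH : Group.IsSolvable H) (χ : H →* ℂˣ) :
    ∃ a b : ℕ, ∑ᶠ h : H, θ h * (((χ h)⁻¹ : ℂˣ) : ℂ) = a * Nat.card H ∧
      ∑ᶠ h : H, av N θ h * (((χ h)⁻¹ : ℂˣ) : ℂ) = b * Nat.card H ∧ b ≤ a := by
  classical
  have hΓ := sup_solvable hN hH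
  set Γ : Subgroup G := H ⊔ N with hΓdef
  have hNΓ : N ≤ Γ := le_sup_right
  have hHΓ : H ≤ Γ := le_sup_left
  have hθΓ : IsHeilbronn (fun x : Γ => θ x) := hθ.comp_sol hΓ Γ.subtype
  let N' := N.subgroupOf Γ
  let H' := H.subgroupOf Γ
  have hN's : Group.IsSolvable N' := inferInstance
  let e : H' ≃* H := Subgroup.subgroupOfEquivOfLe hHΓ
  have hcard : Nat.card H' = Nat.card H := Nat.card_congr e.toEquiv
  have hHN : H' ⊔ N' = ⊤ := by
    rw [eq_top_iff]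
    intro x _
    obtain ⟨h, hh, n, hn, hx⟩ := Subgroup.mem_sup_of_normal_right.mp x.2
    have h1 : x = (⟨h, hHΓ hh⟩ : Γ) * (⟨n, hNΓ hn⟩ : Γ) := Subtype.ext hx.symm
    rw [h1]
    exact mul_mem (Subgroup.mem_sup_left (Subgroup.mem_subgroupOf.mpr hh))
      (Subgroup.mem_sup_right (Subgroup.mem_subgroupOf.mpr hn))
  have : Fintype H' := Fintype.ofFinite _
  obtain ⟨a, ha⟩ := hθΓ.mult H' (χ.comp e.toMonoidHom)
  obtain ⟨b, hb⟩ := (hθΓ.avg N').mult_hom ((QuotientGroup.mk' N').comp H'.subtype)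
    (χ.comp e.toMonoidHom)
  have hb' : ∑ᶠ h : H', avg N' (fun x : Γ => θ x) ((h : Γ) : Γ ⧸ N')
      * ((((χ.comp e.toMonoidHom) h)⁻¹ : ℂˣ) : ℂ) = b * Nat.card H' := by
    rw [finsum_eq_sum_of_fintype]
    exact hb
  have hle := core hθΓ N' H' hN's hHN (χ.comp e.toMonoidHom) ha hb'
  refine ⟨a, b, ?_, ?_, hle⟩
  · rw [← hcard, ← ha]
    exact (finsum_comp_equiv (f := fun h : H => θ h * (((χ h)⁻¹ : ℂˣ) : ℂ)) e.toEquiv).symm
  · rw [← hcard, ← hb', ← finsum_comp_equiv (f := fun h : H => av N θ h * (((χ h)⁻¹ : ℂˣ) : ℂ))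
      e.toEquiv]
    refine finsum_congr fun h => ?_
    rw [av_subgroupOf N Γ hNΓ]
    rfl

omit [Finite G] in
lemma av_conj (hc : ∀ g h : G, θ (h * g * h⁻¹) = θ g) (N : Subgroup G) [N.Normal] (g h : G) :
    av N θ (h * g * h⁻¹) = av N θ g := by
  rw [av, avg_mk, av, avg_mk]
  congr 1
  have h1 := finsum_comp_equiv (MulAut.conjNormal (H := N) h⁻¹).toEquiv
    (f := fun n : N => θ (g * n))
  rw [← h1]
  refine finsum_congr fun n => ?_
  have h2 := hc (g * (h⁻¹ * n * h)) h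
  simp only [MulEquiv.toEquiv_eq_coe, MulEquiv.coe_toEquiv, MulAut.conjNormal_apply, inv_inv]
  rw [← h2]
  congr 1
  group

/-- The old part is again nonnegative on solvable subgroups. -/
theorem av_sol (hθ : IsSolHeilbronn θ) (N : Subgroup G) [N.Normal] (hN : Group.IsSolvable N) :
    IsSolHeilbronn (av N θ) where
  conj g h := av_conj hθ.conj N g h
  mult H hH χ := by
    obtain ⟨a, b, -, hb, -⟩ := sol_avg hθ N hN H hH χ
    exact ⟨b, hb⟩

/-- **The new part is nonnegative on solvable subgroups.** -/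
theorem new_sol (hθ : IsSolHeilbronn θ) (N : Subgroup G) [N.Normal] (hN : Group.IsSolvable N) :
    IsSolHeilbronn (fun g => θ g - av N θ g) where
  conj g h := by rw [av_conj hθ.conj N g h, hθ.conj]
  mult H hH χ := by
    classical
    have : Fintype H := Fintype.ofFinite _
    obtain ⟨a, b, ha, hb, hle⟩ := sol_avg hθ N hN H hH χ
    refine ⟨a - b, ?_⟩
    rw [finsum_eq_sum_of_fintype] at ha hb ⊢
    rw [Nat.cast_sub hle, sub_mul, ← ha, ← hb, ← Finset.sum_sub_distrib]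
    refine Finset.sum_congr rfl fun h _ => ?_
    ring

/-- **Growth at most two in a solvable layer.** -/
theorem new_heilbronn (hθ : IsSolHeilbronn θ) (N : Subgroup G) [N.Normal]
    (hN : Group.IsSolvable N) (h2 : (θ 1 - av N θ 1).re ≤ 2) :
    IsHeilbronn (fun g => θ g - av N θ g) :=
  isHeilbronn_of_sol (new_sol hθ N hN) h2

end Pool.Agent.U143.SH
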