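import Mathlib
import Pool.Agent.H302R3.Integral

/-!
# Degree at most two: nonnegative multiplicities on solvable subgroups are enough
-/

set_option autoImplicit false

namespace Pool.Agent.U143.SH

open Pool.Agent.H302R2 Pool.Agent.H302R3

universe u

variable {G : Type u} [Group G] [Finite G] {θ : G → ℂ}

lemma conj_eq (hθ : IsSolHeilbronn θ) (h1 : θ 1 = 2) (x : G) :
    (starRingEnd ℂ) (θ x) = θ x * (dd θ x)⁻¹ := by
  obtain ⟨a, b, ha, hb, hd, hs, -⟩ := (hθ.zp x).two_eig (by simpa using h1)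
    ⟨x, Subgroup.mem_zpowers x⟩
  have hd' : dd θ x = a * b := hd
  have hs' : θ x = a + b := hs
  have ha0 : a ≠ 0 := by rw [← norm_ne_zero_iff, ha]; norm_num
  have hb0 : b ≠ 0 := by rw [← norm_ne_zero_iff, hb]; norm_num
  rw [hs', hd', map_add, ← Complex.inv_eq_conj ha, ← Complex.inv_eq_conj hb]
  field_simp
  ring

lemma lin_norm (χ : G →* ℂˣ) (g : G) : ‖((χ g : ℂˣ) : ℂ)‖ = 1 := by
  have h1 : ((χ g : ℂˣ) : ℂ) ^ (Nat.card G) = 1 := by
    rw [← Units.val_pow_eq_pow_val, ← map_pow, pow_card_eq_one', map_one, Units.val_one]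
  exact Complex.norm_eq_one_of_pow_eq_one h1 Nat.card_pos.ne'

lemma mult_ge (hθ : IsSolHeilbronn θ) (h1 : θ 1 = 2) (χ : G →* ℂˣ) {m : ℤ}
    (hm : ∑ᶠ g : G, θ g * (((χ g)⁻¹ : ℂˣ) : ℂ) = m * Nat.card G) : -1 ≤ m := by
  classical
  have : Fintype G := Fintype.ofFinite G
  rw [finsum_eq_sum_of_fintype] at hm
  by_contra hlt
  have hm2 : m ≤ -2 := by omega
  have hre := congrArg Complex.re hm
  rw [Complex.re_sum] at hre
  have hb : ∀ g : G, (-2 : ℝ) ≤ (θ g * (((χ g)⁻¹ : ℂˣ) : ℂ)).re := by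
    intro g
    have h2 := Complex.abs_re_le_norm (θ g * (((χ g)⁻¹ : ℂˣ) : ℂ))
    have h3 := hθ.norm_le g
    rw [norm_mul, ← map_inv, lin_norm, mul_one] at h2
    rw [h1] at h3
    have h4 : (2 : ℂ).re = 2 := rfl
    rw [h4] at h3
    rw [map_inv] at h2
    have := abs_le.mp (h2.trans h3)
    exact this.1
  have hlt2 : ∑ g : G, (-2 : ℝ) < ∑ g : G, (θ g * (((χ g)⁻¹ : ℂˣ) : ℂ)).re :=
    Finset.sum_lt_sum (fun g _ => hb g) ⟨1, Finset.mem_univ _, by simp [h1]⟩
  rw [Finset.sum_const, Finset.card_univ, hre] at hlt2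
  have h5 : ((m : ℂ) * (Nat.card G : ℂ)).re = (m : ℝ) * (Nat.card G : ℝ) := by
    rw [← Complex.ofReal_intCast, ← Complex.ofReal_natCast, ← Complex.ofReal_mul,
      Complex.ofReal_re]
  rw [h5, nsmul_eq_mul, ← Nat.card_eq_fintype_card] at hlt2
  have h6 : (m : ℝ) ≤ -2 := by exact_mod_cast hm2
  have h7 : (0 : ℝ) < Nat.card G := by exact_mod_cast Nat.card_pos
  nlinarith

lemma nonneg_of_det (hθ : IsSolHeilbronn θ) (h1 : θ 1 = 2) (hd : ∀ g, dd θ g = 1) {m : ℤ}
    (hm : ∑ᶠ g : G, θ g = m * Nat.card G) : 0 ≤ m := by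
  have h2 : -1 ≤ m := mult_ge hθ h1 1 (by simpa using hm)
  obtain ⟨k, hk⟩ := hθ.parity h1 hd hm
  omega

/-- orthogonality of the powers of a linear character -/
lemma sum_pow_mul {G : Type u} [Group G] [Fintype G] (D : G →* ℂˣ) {i j : ℕ} (hi : i < orderOf D) (hj : j < orderOf D) :
    ∑ g : G, (((D ^ i) g : ℂˣ) : ℂ) * ((((D ^ j) g)⁻¹ : ℂˣ) : ℂ)
      = if i = j then (Nat.card G : ℂ) else 0 := by
  classical
  split_ifs with h
  · subst h
    rw [Finset.sum_congr rfl (g := fun _ => (1 : ℂ)) (fun g _ => by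
      rw [← Units.val_mul, mul_inv_cancel, Units.val_one])]
    simp [Nat.card_eq_fintype_card]
  · have hne : D ^ i * (D ^ j)⁻¹ ≠ 1 := by
      intro h2
      have h3 : D ^ i = D ^ j := mul_inv_eq_one.mp h2
      exact h (pow_injOn_Iio_orderOf hi hj h3)
    have h2 := sum_hom_units_eq_zero (R := ℂ) ((Units.coeHom ℂ).comp (D ^ i * (D ^ j)⁻¹)) (by
      intro h3
      apply hne
      ext g
      have h4 := DFunLike.congr_fun h3 g
      exact h4)
    rw [← h2]
    refine Finset.sum_congr rfl fun g _ => ?_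
    simp

/-- the main case -/
lemma nonneg_two (hθ : IsSolHeilbronn θ) (h1 : θ 1 = 2) {m₀ : ℤ}
    (hm₀ : ∑ᶠ g : G, θ g = m₀ * Nat.card G) : 0 ≤ m₀ := by
  classical
  have : Fintype G := Fintype.ofFinite G
  by_contra hneg
  obtain ⟨D, hD⟩ := hθ.exists_det h1
  have hcard : (0 : ℝ) < Nat.card G := by exact_mod_cast Nat.card_pos
  have hcardC : (Nat.card G : ℂ) ≠ 0 := by exact_mod_cast Nat.card_pos.ne'
  have hge := mult_ge hθ h1 1 (m := m₀) (by simpa using hm₀)
  have hm0 : m₀ = -1 := by omega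
  -- the determinant is not trivial
  have hDne : D ≠ 1 := by
    intro h
    refine hneg (nonneg_of_det hθ h1 (fun g => ?_) hm₀)
    rw [← hD, h]
    rfl
  have hDfin : IsOfFinOrder D := by
    rw [isOfFinOrder_iff_pow_eq_one]
    refine ⟨Nat.card G, Nat.card_pos, ?_⟩
    ext g
    rw [MonoidHom.pow_apply, ← map_pow, pow_card_eq_one', map_one, MonoidHom.one_apply]
  set k := orderOf D with hk
  have hk0 : 0 < k := hDfin.orderOf_pos
  have hk2 : 2 ≤ k := by
    rcases Nat.lt_or_ge k 2 with h | h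
    · exfalso
      have h2 : k = 1 := by omega
      exact hDne (orderOf_eq_one_iff.mp h2)
    · exact h
  choose m hm using fun j : ℕ => hθ.int_mult (D ^ j)
  simp only [finsum_eq_sum_of_fintype] at hm
  have hm0' : m 0 = -1 := by
    have h2 := hm 0
    rw [finsum_eq_sum_of_fintype] at hm₀
    have h2' : ∑ g : G, θ g * ((((D ^ 0) g)⁻¹ : ℂˣ) : ℂ) = ∑ g : G, θ g := by
      refine Finset.sum_congr rfl fun g _ => ?_
      rw [MonoidHom.pow_apply, pow_zero, inv_one, Units.val_one, mul_one]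
    rw [h2', hm₀] at h2
    have h3 := mul_right_cancel₀ hcardC h2
    have h4 : m₀ = m 0 := by exact_mod_cast h3
    omega
  have hm1 : m 1 = -1 := by
    have h2 := hm 1
    have h3 : ∑ g : G, θ g * ((((D ^ 1) g)⁻¹ : ℂˣ) : ℂ) = (starRingEnd ℂ) (∑ g : G, θ g) := by
      rw [map_sum]
      refine Finset.sum_congr rfl fun g _ => ?_
      rw [conj_eq hθ h1, ← hD, pow_one, Units.val_inv_eq_inv_val]
    rw [finsum_eq_sum_of_fintype] at hm₀
    rw [h3, hm₀] at h2
    have h4 : (starRingEnd ℂ) ((m₀ : ℂ) * (Nat.card G : ℂ)) = (m₀ : ℂ) * (Nat.card G : ℂ) := by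
      rw [map_mul, Complex.conj_natCast]
      congr 1
      exact map_intCast (starRingEnd ℂ) _
    rw [h4] at h2
    have h5 := mul_right_cancel₀ hcardC h2
    have h6 : m₀ = m 1 := by exact_mod_cast h5
    omega
  -- the sum of the multiplicities
  set S : ℤ := ∑ j ∈ Finset.range k, m j with hS
  have hS0 : 0 ≤ S := by
    let N := D.ker
    have hθN : IsSolHeilbronn (fun x : N => θ x) := hθ.comp N.subtype
    obtain ⟨n, hn⟩ := hθN.int_mult_one
    have hn0 : 0 ≤ n := by
      refine nonneg_of_det hθN (by simpa using h1) (fun g => ?_) hn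
      have h2 : dd (fun x : N => θ x) g = dd θ (g : G) := rfl
      rw [h2, ← hD, MonoidHom.mem_ker.mp g.2, Units.val_one]
    have : Fintype N := Fintype.ofFinite N
    rw [finsum_eq_sum_of_fintype] at hn
    have h3 : (S : ℂ) * Nat.card G = (k : ℂ) * (n * Nat.card N) := by
      rw [← hn, hS]
      push_cast
      rw [Finset.sum_mul, Finset.sum_congr rfl (fun j _ => (hm j).symm), Finset.sum_comm]
      have h4 : ∀ g : G, ∑ j ∈ Finset.range k, θ g * ((((D ^ j) g)⁻¹ : ℂˣ) : ℂ)
          = if g ∈ N then (k : ℂ) * θ g else 0 := by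
        intro g
        split_ifs with hg
        · have h5 : D g = 1 := hg
          rw [Finset.sum_congr rfl (g := fun _ => θ g) (fun j _ => by
            rw [MonoidHom.pow_apply, h5, one_pow, inv_one, Units.val_one, mul_one])]
          simp
        · have h5 : D g ≠ 1 := hg
          rw [← Finset.mul_sum]
          have h6 : ∑ j ∈ Finset.range k, ((((D ^ j) g)⁻¹ : ℂˣ) : ℂ)
              = ∑ j ∈ Finset.range k, (((D g)⁻¹ : ℂˣ) : ℂ) ^ j := by
            refine Finset.sum_congr rfl fun j _ => ?_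
            rw [MonoidHom.pow_apply, ← inv_pow, Units.val_pow_eq_pow_val]
          have h7 : (((D g)⁻¹ : ℂˣ) : ℂ) ≠ 1 := by
            intro h8
            apply h5
            rw [← inv_eq_one, ← Units.val_eq_one]
            exact h8
          have h8 : (((D g)⁻¹ : ℂˣ) : ℂ) ^ k = 1 := by
            rw [← Units.val_pow_eq_pow_val, inv_pow, ← MonoidHom.pow_apply, hk, pow_orderOf_eq_one]
            simp
          rw [h6, geom_sum_eq h7, h8, sub_self, zero_div, mul_zero]
      rw [Finset.sum_congr rfl (fun g _ => h4 g), ← Finset.sum_filter, ← Finset.mul_sum]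
      congr 1
      exact Finset.sum_subtype _ (by simp) θ
    have h9 : (S : ℤ) * Nat.card G = (k : ℤ) * (n * Nat.card N) := by exact_mod_cast h3
    have h10 : (0 : ℤ) ≤ (k : ℤ) * (n * Nat.card N) := by positivity
    have h11 : (0 : ℤ) < Nat.card G := by exact_mod_cast Nat.card_pos
    rw [← h9] at h10
    exact nonneg_of_mul_nonneg_left h10 h11
  -- the sum of the squares
  set T : ℤ := ∑ j ∈ Finset.range k, m j ^ 2 with hT
  have hTS : 4 + S ≤ T := by
    have h2 : ∑ j ∈ ({0, 1} : Finset ℕ), (m j ^ 2 - m j) ≤ ∑ j ∈ Finset.range k, (m j ^ 2 - m j) := by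
      refine Finset.sum_le_sum_of_subset_of_nonneg ?_ ?_
      · intro j hj
        rw [Finset.mem_insert, Finset.mem_singleton] at hj
        rw [Finset.mem_range]
        omega
      · intro j _ _
        have : m j ≤ m j ^ 2 := Int.le_self_sq _
        omega
    simp only [Finset.sum_sub_distrib] at h2
    rw [← hS, ← hT, Finset.sum_pair (by norm_num), Finset.sum_pair (by norm_num), hm0', hm1] at h2
    norm_num at h2
    omega
  -- Bessel
  let F : G → ℂ := fun g => ∑ j ∈ Finset.range k, (m j : ℂ) * (((D ^ j) g : ℂˣ) : ℂ)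
  have hconjlin : ∀ (j : ℕ) (g : G), (starRingEnd ℂ) (((D ^ j) g : ℂˣ) : ℂ)
      = ((((D ^ j) g)⁻¹ : ℂˣ) : ℂ) := by
    intro j g
    rw [Units.val_inv_eq_inv_val, Complex.inv_eq_conj (lin_norm _ _)]
  have hconjF : ∀ g, (starRingEnd ℂ) (F g)
      = ∑ j ∈ Finset.range k, (m j : ℂ) * ((((D ^ j) g)⁻¹ : ℂˣ) : ℂ) := by
    intro g
    simp only [F, map_sum, map_mul, hconjlin]
    refine Finset.sum_congr rfl fun j _ => ?_
    congr 1
    exact map_intCast (starRingEnd ℂ) _
  have hX : ∑ g : G, θ g * (starRingEnd ℂ) (F g) = (T : ℂ) * Nat.card G := by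
    simp only [hconjF, Finset.mul_sum]
    rw [Finset.sum_comm, hT]
    push_cast
    rw [Finset.sum_mul]
    refine Finset.sum_congr rfl fun j _ => ?_
    rw [sq, mul_assoc, ← hm j, Finset.mul_sum]
    refine Finset.sum_congr rfl fun g _ => ?_
    simp only [Units.val_inv_eq_inv_val]
    ring
  have hX' : ∑ g : G, F g * (starRingEnd ℂ) (θ g) = (T : ℂ) * Nat.card G := by
    have h2 := congrArg (starRingEnd ℂ) hX
    rw [map_sum, map_mul, Complex.conj_natCast, map_intCast] at h2
    rw [← h2]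
    refine Finset.sum_congr rfl fun g _ => ?_
    rw [map_mul, Complex.conj_conj]
    ring
  have hY : ∑ g : G, F g * (starRingEnd ℂ) (F g) = (T : ℂ) * Nat.card G := by
    have h0 : ∀ g : G, F g * (starRingEnd ℂ) (F g) = ∑ i ∈ Finset.range k, ∑ j ∈ Finset.range k,
        (m i : ℂ) * (((D ^ i) g : ℂˣ) : ℂ) * ((m j : ℂ) * ((((D ^ j) g)⁻¹ : ℂˣ) : ℂ)) := by
      intro g
      rw [hconjF]
      simp only [F]
      rw [Finset.sum_mul_sum]
    rw [Finset.sum_congr rfl (fun g _ => h0 g), Finset.sum_comm]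
    have h2 : ∀ i ∈ Finset.range k, ∑ g : G, ∑ j ∈ Finset.range k,
        (m i : ℂ) * (((D ^ i) g : ℂˣ) : ℂ) * ((m j : ℂ) * ((((D ^ j) g)⁻¹ : ℂˣ) : ℂ))
        = (m i : ℂ) ^ 2 * Nat.card G := by
      intro i hi
      rw [Finset.sum_comm]
      have h3 : ∀ j ∈ Finset.range k, ∑ g : G,
          (m i : ℂ) * (((D ^ i) g : ℂˣ) : ℂ) * ((m j : ℂ) * ((((D ^ j) g)⁻¹ : ℂˣ) : ℂ))
          = if i = j then (m i : ℂ) * (m j : ℂ) * Nat.card G else 0 := by
        intro j hj
        have h4 := sum_pow_mul D (Finset.mem_range.mp hi) (Finset.mem_range.mp hj)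
        have h5 : ∑ g : G,
            (m i : ℂ) * (((D ^ i) g : ℂˣ) : ℂ) * ((m j : ℂ) * ((((D ^ j) g)⁻¹ : ℂˣ) : ℂ))
            = (m i : ℂ) * (m j : ℂ) * ∑ g : G, (((D ^ i) g : ℂˣ) : ℂ) * ((((D ^ j) g)⁻¹ : ℂˣ) : ℂ) := by
          rw [Finset.mul_sum]
          refine Finset.sum_congr rfl fun g _ => ?_
          ring
        rw [h5, h4]
        split_ifs <;> simp
      rw [Finset.sum_congr rfl h3, Finset.sum_ite_eq, if_pos hi]
      ring
    rw [Finset.sum_congr rfl h2, hT]
    push_cast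
    rw [Finset.sum_mul]
  have hQ : ((∑ g : G, ‖θ g - F g‖ ^ 2 : ℝ) : ℂ)
      = ((∑ g : G, ‖θ g‖ ^ 2 - T * Nat.card G : ℝ) : ℂ) := by
    push_cast
    have h2 : ∀ z : ℂ, ((‖z‖ : ℂ)) ^ 2 = z * (starRingEnd ℂ) z := by
      intro z
      rw [Complex.mul_conj, Complex.normSq_eq_norm_sq]
      push_cast
      rfl
    simp only [h2, map_sub]
    have h3 : ∀ g : G, (θ g - F g) * ((starRingEnd ℂ) (θ g) - (starRingEnd ℂ) (F g))
        = θ g * (starRingEnd ℂ) (θ g) - θ g * (starRingEnd ℂ) (F g)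
          - F g * (starRingEnd ℂ) (θ g) + F g * (starRingEnd ℂ) (F g) := by
      intro g
      ring
    simp only [h3, Finset.sum_add_distrib, Finset.sum_sub_distrib]
    rw [hX, hX', hY]
    ring
  have hQ' : (∑ g : G, ‖θ g - F g‖ ^ 2 : ℝ) = ∑ g : G, ‖θ g‖ ^ 2 - T * Nat.card G := by
    exact_mod_cast hQ
  have hle : ∑ g : G, ‖θ g‖ ^ 2 ≤ 4 * (Nat.card G : ℝ) := by
    have h2 : ∑ g : G, ‖θ g‖ ^ 2 ≤ ∑ _g : G, (4 : ℝ) := by
      refine Finset.sum_le_sum fun g _ => ?_
      have h3 := hθ.norm_le g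
      rw [h1] at h3
      have h4 : (2 : ℂ).re = 2 := rfl
      rw [h4] at h3
      have h5 := norm_nonneg (θ g)
      nlinarith
    rw [Finset.sum_const, Finset.card_univ, nsmul_eq_mul, ← Nat.card_eq_fintype_card] at h2
    linarith
  have hone : ‖θ 1 - F 1‖ ^ 2 ≤ ∑ g : G, ‖θ g - F g‖ ^ 2 :=
    Finset.single_le_sum (f := fun g => ‖θ g - F g‖ ^ 2) (fun g _ => sq_nonneg _)
      (Finset.mem_univ 1)
  have hF1 : F 1 = (S : ℂ) := by
    simp only [F, map_one, Units.val_one, mul_one, hS]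
    push_cast
    rfl
  have hTS' : (4 : ℝ) + S ≤ T := by exact_mod_cast hTS
  have hS0' : (0 : ℝ) ≤ S := by exact_mod_cast hS0
  have h20 : (0 : ℝ) ≤ ‖θ 1 - F 1‖ ^ 2 := sq_nonneg _
  have h21 : (S : ℝ) * Nat.card G ≤ 0 := by nlinarith
  have h22 : (S : ℝ) = 0 := by nlinarith
  have h23 : ‖θ 1 - F 1‖ ^ 2 = 4 := by
    rw [h1, hF1]
    have h24 : (S : ℂ) = 0 := by exact_mod_cast h22
    rw [h24, sub_zero]
    norm_num
  rw [h23] at hone
  nlinarith

/-- **Degree at most two.** A class function of degree at most two whose restrictions to all solvable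
subgroups have nonnegative integral multiplicities at all linear characters has this property for all
subgroups. -/
theorem isHeilbronn_of_sol (hθ : IsSolHeilbronn θ) (h2 : (θ 1).re ≤ 2) : IsHeilbronn θ where
  conj := hθ.conj
  mult H χ := by
    classical
    have : Fintype H := Fintype.ofFinite H
    have hθH : IsSolHeilbronn (fun x : H => θ x) := hθ.comp H.subtype
    have hθt := hθH.twist χ
    obtain ⟨m, hm⟩ := hθH.int_mult χ
    obtain ⟨r, hr⟩ := hθ.exists_deg
    have hr2 : r ≤ 2 := by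
      rw [hr, Complex.natCast_re] at h2
      exact_mod_cast h2
    have hcardC : (Nat.card H : ℂ) ≠ 0 := by exact_mod_cast Nat.card_pos.ne'
    suffices h : 0 ≤ m by
      obtain ⟨n, rfl⟩ := Int.eq_ofNat_of_zero_le h
      exact ⟨n, by rw [hm]; simp⟩
    interval_cases r
    · -- degree zero
      have h3 : ∀ x : H, θ x = 0 := by
        intro x
        have h4 := hθ.norm_le (x : G)
        rw [hr] at h4
        simpa using h4
      rw [finsum_eq_sum_of_fintype, Finset.sum_eq_zero (fun x _ => by rw [h3 x, zero_mul])] at hm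
      have h5 : (m : ℂ) = 0 := by
        rcases mul_eq_zero.mp hm.symm with h | h
        · exact h
        · exact absurd h hcardC
      have h6 : m = 0 := by exact_mod_cast h5
      omega
    · -- degree one
      obtain ⟨ψ, hψ⟩ := hθH.deg_one (by simpa using hr)
      by_cases hc : ψ = χ
      · rw [finsum_eq_sum_of_fintype, Finset.sum_congr rfl (g := fun _ => (1 : ℂ)) (fun x _ => by
          have h4 : θ (x : G) = ((ψ x : ℂˣ) : ℂ) := hψ x
          rw [h4, hc, ← Units.val_mul, mul_inv_cancel, Units.val_one])] at hm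
        have h5 : (m : ℂ) * (Nat.card H : ℂ) = 1 * (Nat.card H : ℂ) := by
          rw [← hm]
          simp [Nat.card_eq_fintype_card]
        have h6 := mul_right_cancel₀ hcardC h5
        have h7 : m = 1 := by exact_mod_cast h6
        omega
      · have h4 := sum_hom_units_eq_zero (R := ℂ) ((Units.coeHom ℂ).comp (ψ * χ⁻¹)) (by
          intro h3
          apply hc
          have h5 : ψ * χ⁻¹ = 1 := by
            ext g
            exact DFunLike.congr_fun h3 g
          exact mul_inv_eq_one.mp h5)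
        rw [finsum_eq_sum_of_fintype, Finset.sum_congr rfl
          (g := fun x => ((Units.coeHom ℂ).comp (ψ * χ⁻¹)) x) (fun x _ => by
          have h4 : θ (x : G) = ((ψ x : ℂˣ) : ℂ) := hψ x
          rw [h4]
          simp), h4] at hm
        have h5 : (m : ℂ) = 0 := by
          rcases mul_eq_zero.mp hm.symm with h | h
          · exact h
          · exact absurd h hcardC
        have h6 : m = 0 := by exact_mod_cast h5
        omega
    · -- degree two
      refine nonneg_two hθt ?_ (m₀ := m) ?_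
      · simp only [map_one, inv_one, Units.val_one, mul_one, OneMemClass.coe_one]
        simpa using hr
      · exact hm

end Pool.Agent.U143.SH
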